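import Pool.Agent.Helper48.TF.PERM
import Pool.Agent.Helper48.TF.Defs5
import Pool.Agent.Helper41.TF.LEV

/-!
# TF stage 3, part SPI (MP_097e5c_al): semiprime PI rings satisfy a standard identity
-/

set_option autoImplicit false

namespace Pool.TF48.H39

open Pool.TF48 Pool.TF48.H41

/-- the value of a multilinear polynomial -/
def val {R : Type} [NonUnitalRing R] (n : ℕ) (a : Equiv.Perm (Fin (n + 1)) → ℤ)
    (x : Fin (n + 1) → R) : R := ∑ σ, a σ • mon n (fun i => x (σ i))

theorem key {R : Type} [NonUnitalRing R] (n : ℕ) (a : Equiv.Perm (Fin (n + 1)) → ℤ)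
    (x : Fin (n + 1) → R) :
    ∑ σ, a σ • (List.ofFn (fun i => (x (σ i) : Unitization ℤ R))).prod =
      ((val n a x : R) : Unitization ℤ R) := by
  have h := map_sum (Unitization.inrHom ℤ ℤ R) (fun σ : Equiv.Perm (Fin (n + 1)) =>
    a σ • mon n (fun i => x (σ i))) Finset.univ
  simp only [map_zsmul] at h
  refine (Finset.sum_congr rfl fun σ _ => ?_).trans h.symm
  rw [mon_coe n (fun i => x (σ i))]
  rfl

theorem val_map {R R' : Type} [NonUnitalRing R] [NonUnitalRing R'] (φ : R →ₙ+* R') (n : ℕ)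
    (a : Equiv.Perm (Fin (n + 1)) → ℤ) (x : Fin (n + 1) → R) :
    φ (val n a x) = val n a (fun i => φ (x i)) := by
  unfold val
  rw [map_sum]
  refine Finset.sum_congr rfl fun σ _ => ?_
  rw [map_zsmul, mon_map]

theorem ident_surj {R R' : Type} [NonUnitalRing R] [NonUnitalRing R'] (f : FA ℕ)
    (hf : ∀ r : ℕ → R, ev r f = 0) (π : R →ₙ+* R') (hπ : Function.Surjective π) :
    ∀ r : ℕ → R', ev r f = 0 := by
  intro r
  choose s hs using fun i => hπ (r i)
  have h1 := mapU_ev π s f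
  rw [hf s, map_zero] at h1
  have h2 : (fun i => π (s i)) = r := funext hs
  rw [h2] at h1
  exact h1.symm

/-- the evaluation on a product -/
def evl {I : Type} {P : I → Type} (inst : ∀ i, NonUnitalRing (P i)) (i : I) :
    (∀ i, P i) →ₙ+* P i where
  toFun s := s i
  map_mul' _ _ := rfl
  map_zero' := rfl
  map_add' _ _ := rfl

theorem ident_pi {I : Type} {P : I → Type} (inst : ∀ i, NonUnitalRing (P i)) (f : FA ℕ)
    (hf0 : f.coeff 1 = 0) (hf : ∀ i, ∀ r : ℕ → P i, ev r f = 0) :
    ∀ r : ℕ → (∀ i, P i), ev r f = 0 := by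
  intro r
  have h0 : (ev r f).fst = 0 := by rw [fst_ev, hf0]
  rw [eq_inr h0, inr_zero_iff]
  funext i
  have h1 := mapU_ev (evl inst i) r f
  rw [hf i] at h1
  have h2 := congrArg (fun z : Unitization ℤ (P i) => z.snd) h1
  exact h2

theorem tf_or {P : Type} [NonUnitalRing P]
    (hP : ∀ x y : P, (∀ z, x * z * y = 0) → x = 0 ∨ y = 0) :
    TorsionFree P ∨ ∃ p : ℕ, p.Prime ∧ ∀ x : P, p • x = 0 := by
  classical
  by_cases h : TorsionFree P
  · exact Or.inl h
  · right
    unfold TorsionFree at h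
    push Not at h
    obtain ⟨k, s, hk, hks, hs⟩ := h
    have kill : ∀ (m : ℕ) (y : P), m • y = 0 → y ≠ 0 → ∀ x : P, m • x = 0 := by
      intro m y hmy hy x
      rcases hP (m • x) y (fun z => by
        rw [smul_mul_assoc, smul_mul_assoc, ← mul_smul_comm, hmy, mul_zero]) with h1 | h1
      · exact h1
      · exact absurd h1 hy
    have hex : ∃ m : ℕ, 0 < m ∧ ∀ x : P, m • x = 0 :=
      ⟨k, Nat.pos_of_ne_zero hk, kill k s hks hs⟩
    set k0 := Nat.find hex with hk0
    obtain ⟨hpos, hkill⟩ := Nat.find_spec hex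
    rw [← hk0] at hpos hkill
    have hne1 : k0 ≠ 1 := by
      intro h1
      have := hkill s
      rw [h1, one_smul] at this
      exact hs this
    have hp : k0.minFac.Prime := Nat.minFac_prime hne1
    obtain ⟨m, hm⟩ := Nat.minFac_dvd k0
    have hmpos : 0 < m := by
      rcases Nat.eq_zero_or_pos m with h1 | h1
      · rw [h1, mul_zero] at hm; omega
      · exact h1
    have hmlt : m < k0 := by
      have h2 := hp.two_le
      calc m < 2 * m := by omega
        _ ≤ k0.minFac * m := by gcongr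
        _ = k0 := hm.symm
    have hmin := Nat.find_min hex (m := m) (by rw [← hk0]; exact hmlt)
    push Not at hmin
    obtain ⟨x0, hx0⟩ := hmin hmpos
    refine ⟨k0.minFac, hp, kill _ (m • x0) ?_ hx0⟩
    rw [← mul_smul, ← hm]
    exact hkill x0

theorem char_mi (h1 : S_POL) (f : FA ℕ) (hf0 : f.coeff 1 = 0) (w1 : FreeMonoid ℕ)
    (hw1 : f.coeff w1 = 1) {P : Type} [NonUnitalRing P] (hf : ∀ r : ℕ → P, ev r f = 0)
    {p : ℕ} (hp : p.Prime) (hpP : ∀ x : P, p • x = 0) :
    ∃ n : ℕ, n ≤ f.coeff.support.sup (fun w => (FreeMonoid.toList w).length) ∧ MI n P := by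
  classical
  set s := f.coeff.support.filter (fun w => ¬ (p : ℤ) ∣ f.coeff w) with hs
  have hzp : ∀ (c : ℤ) (x : P), (p : ℤ) ∣ c → c • x = 0 := by
    rintro _ x ⟨c, rfl⟩
    rw [mul_comm, mul_smul, natCast_zsmul, hpP, smul_zero]
  have hp1 : ¬ (p : ℤ) ∣ 1 := by
    intro h
    have := Int.natCast_dvd_natCast.1 (by exact_mod_cast h : ((p : ℕ) : ℤ) ∣ ((1 : ℕ) : ℤ))
    exact hp.one_lt.ne' (Nat.dvd_one.1 this)
  have hne : s.Nonempty := ⟨w1, by
    rw [hs, Finset.mem_filter, Finsupp.mem_support_iff, hw1]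
    exact ⟨one_ne_zero, hp1⟩⟩
  obtain ⟨w0, hw0, hmax⟩ := s.exists_max_image (fun w => (FreeMonoid.toList w).length) hne
  have hw0' := hw0
  rw [hs, Finset.mem_filter] at hw0'
  have hlen : (FreeMonoid.toList w0).length ≠ 0 := by
    intro h
    have h2 : FreeMonoid.toList w0 = [] := List.length_eq_zero_iff.1 h
    have h3 : w0 = 1 := by
      have := congrArg FreeMonoid.ofList h2
      simpa using this
    apply hw0'.2
    rw [h3, hf0]
    exact dvd_zero _
  obtain ⟨n, hn⟩ := Nat.exists_eq_succ_of_ne_zero hlen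
  have hofn : ∀ (l : List ℕ) (m : ℕ), l.length = m → ∃ w : Fin m → ℕ, List.ofFn w = l := by
    rintro l _ rfl
    exact ⟨l.get, List.ofFn_get l⟩
  obtain ⟨w, hw⟩ := hofn _ _ hn
  refine ⟨n, ?_, ?_⟩
  · have h2 : (FreeMonoid.toList w0).length ≤
        f.coeff.support.sup (fun w => (FreeMonoid.toList w).length) :=
      Finset.le_sup (f := fun w => (FreeMonoid.toList w).length) hw0'.1
    omega
  · have hpol := h1 P f hf n w (by
      intro v hv r
      apply hzp
      by_contra hcon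
      have hv2 : v ∈ s := by
        rw [hs, Finset.mem_filter, Finsupp.mem_support_iff]
        refine ⟨?_, hcon⟩
        intro h
        rw [h] at hcon
        exact hcon (dvd_zero _)
      have := hmax v hv2
      omega)
    set c : Equiv.Perm (Fin (n + 1)) → ℤ := fun σ =>
      f.coeff (FreeMonoid.ofList (List.ofFn (fun i => w (σ i)))) with hc
    have hc1 : c 1 = f.coeff w0 := by
      rw [hc]
      simp only [Equiv.Perm.coe_one, id_eq]
      rw [hw]
      rfl
    have hcop : IsCoprime (p : ℤ) (c 1) := by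
      rw [hc1]
      exact (Nat.prime_iff_prime_int.1 hp).coprime_iff_not_dvd.2 hw0'.2
    obtain ⟨v, u, huv⟩ := hcop
    refine ⟨fun σ => if σ = 1 then 1 else u * c σ, by simp, fun x => ?_⟩
    rw [key, inr_zero_iff]
    have h2 := hpol x
    have h3 : ((val n c x : P) : Unitization ℤ P) = 0 := by
      rw [← key]
      exact h2
    rw [inr_zero_iff] at h3
    have h4 : val n (fun σ => if σ = 1 then 1 else u * c σ) x = u • val n c x := by
      unfold val
      rw [Finset.smul_sum]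
      refine Finset.sum_congr rfl fun σ _ => ?_
      beta_reduce
      by_cases hσ : σ = 1
      · rw [if_pos hσ, hσ, ← mul_smul]
        have h5 : ((1 : ℤ) • mon n (fun i => x ((1 : Equiv.Perm (Fin (n + 1))) i))) =
            (v * (p : ℤ) + u * c 1) • mon n (fun i => x ((1 : Equiv.Perm (Fin (n + 1))) i)) := by
          rw [huv]
        rw [h5, add_smul, hzp (v * p) _ (Dvd.intro_left v rfl), zero_add]
      · rw [if_neg hσ, mul_smul]
    rw [h4, h3, smul_zero]

theorem spi (h1 : S_POL) (h2 : S_PSD) (h3 : S_STD) (h4 : S_UP) (h5 : S_LIN) : S_SPI := by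
  classical
  intro R _ hPI hS
  obtain ⟨f, hf0, ⟨w1, hw1⟩, hf⟩ := hPI
  have h := fun a : {a : R // a ≠ 0} => h2 R hS a.1 a.2
  choose R' inst π hπ hprime hne using h
  have hfa : ∀ a, ∀ r : ℕ → R' a, ev r f = 0 := fun a => ident_surj f hf (π a) (hπ a)
  -- the torsion-free ones
  have htf : ∃ d0, ∀ a, TorsionFree (R' a) → MI d0 (R' a) := by
    let I : Type := {a : {a : R // a ≠ 0} // TorsionFree (R' a)}
    let instI : ∀ i : I, NonUnitalRing (R' i.1) := fun i => inst i.1
    let S : Type := ∀ i : I, R' i.1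
    have hTF : TorsionFree S := by
      intro k s hk hks
      funext i
      exact i.2 k (s i) hk (congrFun hks i)
    have hPIS : PI S := ⟨f, hf0, ⟨w1, hw1⟩, ident_pi instI f hf0 (fun i => hfa i.1)⟩
    obtain ⟨d0, hd0⟩ := h5 S hTF hPIS
    refine ⟨d0, fun a ha => ?_⟩
    have hsurj : Function.Surjective (evl instI ⟨a, ha⟩) := by
      intro r
      refine ⟨Function.update (0 : S) ⟨a, ha⟩ r, ?_⟩
      exact Function.update_self _ _ _
    obtain ⟨c, hc1, hc⟩ := hd0
    refine ⟨c, hc1, fun x => ?_⟩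
    choose y hy using fun i => hsurj (x i)
    have h6 := hc y
    rw [key, inr_zero_iff] at h6
    rw [key, inr_zero_iff]
    have h7 := val_map (evl instI ⟨a, ha⟩) d0 c y
    rw [h6, map_zero] at h7
    have h8 : (fun i => (evl instI ⟨a, ha⟩) (y i)) = x := funext hy
    rw [h8] at h7
    exact h7.symm
  obtain ⟨d0, hd0⟩ := htf
  set B := f.coeff.support.sup (fun w => (FreeMonoid.toList w).length) with hB
  have hMI : ∀ a, MI (max d0 B) (R' a) := by
    intro a
    rcases tf_or (hprime a) with h6 | ⟨p, hp, hpP⟩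
    · exact h4 _ _ _ (le_max_left _ _) (hd0 a h6)
    · obtain ⟨n, hn, hMIn⟩ := char_mi h1 f hf0 w1 hw1 (hfa a) hp hpP
      exact h4 _ _ _ (hn.trans (le_max_right _ _)) hMIn
  refine ⟨(max d0 B + 1) * (max d0 B + 1), fun x => ?_⟩
  have e := key ((max d0 B + 1) * (max d0 B + 1))
    (fun σ => ((Equiv.Perm.sign σ : ℤˣ) : ℤ)) x
  refine e.trans ?_
  rw [inr_zero_iff]
  by_contra hcon
  have h6 := hne ⟨_, hcon⟩
  apply h6
  rw [val_map]
  have h7 := h3 (max d0 B) (R' ⟨_, hcon⟩) (hMI _) (fun b hb => by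
    rcases hprime _ b b hb with h | h <;> exact h) (fun i => π ⟨_, hcon⟩ (x i))
  have e2 := key ((max d0 B + 1) * (max d0 B + 1))
    (fun σ => ((Equiv.Perm.sign σ : ℤˣ) : ℤ)) (fun i => π ⟨_, hcon⟩ (x i))
  rw [← inr_zero_iff, ← e2]
  exact h7

theorem main (h1 : S_POL) (h2 : S_PSD) (h3 : S_STD) (h4 : S_UP) (h5 : S_LIN) : S_SPI :=
  spi h1 h2 h3 h4 h5

end Pool.TF48.H39
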